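import Pool.Agent.H70.CC.Main

set_option autoImplicit false

namespace Pool.Agent.Results.MP_ca1eac_gt.CatenoidCousins

open Pool.CC

/-- **Main theorem.**  For every `a ≠ 0` and every constant `C` there is a smooth embedded compact
annulus in hyperbolic 3-space of curvature `-a^2` whose mean curvature is constant equal to `|a|`
and whose area `A` and total boundary length `L` satisfy `A > C L^2`. -/
theorem result (a : ℝ) (ha : a ≠ 0) (C : ℝ) :
    ∃ (X ν : ℝ → ℝ → Fin 4 → ℝ) (U : ℝ), 0 < U ∧ IsEmbeddedAnnulus a X ∧ IsUnitNormal X ν ∧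
      (∀ u v, meanCurv X ν u v = |a|) ∧ C * bdryLength X U ^ 2 < area X U :=
  main_result a ha C

end Pool.Agent.Results.MP_ca1eac_gt.CatenoidCousins
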